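import Mathlib

set_option autoImplicit false

namespace Pool.Agent.H8.Ill

/-- A convex body in `ℝ^d`. -/
def IsBody (d : ℕ) (K : Set (EuclideanSpace ℝ (Fin d))) : Prop :=
  Convex ℝ K ∧ IsCompact K ∧ (interior K).Nonempty

/-- `A` is an inner illuminating set of `K`. -/
def InnerIll (d : ℕ) (K A : Set (EuclideanSpace ℝ (Fin d))) : Prop :=
  A ⊆ frontier K ∧ ∀ x ∈ frontier K, ∃ a ∈ A, ∃ ε : ℝ, 0 < ε ∧ ε < 1 ∧
    (1 - ε) • x + ε • a ∈ interior K

/-- `U` is an outer illuminating set of `K`. -/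
def OuterIll (d : ℕ) (K U : Set (EuclideanSpace ℝ (Fin d))) : Prop :=
  (∀ u ∈ U, ‖u‖ = 1) ∧ ∀ x ∈ frontier K, ∃ u ∈ U, ∃ ε : ℝ, 0 < ε ∧ ε < 1 ∧
    x + ε • u ∈ interior K

/-- `A` has the property `P` and no proper subset of `A` has it. -/
def IsPrimitive (d : ℕ) (P : Set (EuclideanSpace ℝ (Fin d)) → Prop)
    (A : Set (EuclideanSpace ℝ (Fin d))) : Prop :=
  P A ∧ ∀ B : Set (EuclideanSpace ℝ (Fin d)), B ⊂ A → ¬ P B

/-- Primitive inner illuminating sets of convex bodies in `ℝ^d` can have arbitrarily large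
cardinality. -/
def InnerUnbounded (d : ℕ) : Prop :=
  ∀ n : ℕ, ∃ K A : Set (EuclideanSpace ℝ (Fin d)), IsBody d K ∧ IsPrimitive d (InnerIll d K) A ∧
    (n : ℕ∞) ≤ A.encard

/-- Primitive outer illuminating sets of convex bodies in `ℝ^d` can have arbitrarily large
cardinality. -/
def OuterUnbounded (d : ℕ) : Prop :=
  ∀ n : ℕ, ∃ K U : Set (EuclideanSpace ℝ (Fin d)), IsBody d K ∧ IsPrimitive d (OuterIll d K) U ∧
    (n : ℕ∞) ≤ U.encard

end Pool.Agent.H8.Ill
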