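import Mathlib
import Pool.Agent.H8.Ill.Defs

set_option autoImplicit false

namespace Pool.Agent.H8.Ill

open Set Filter Topology

theorem exists_min {d : ℕ} (P : Set (EuclideanSpace ℝ (Fin d)) → Prop)
    (A : Set (EuclideanSpace ℝ (Fin d))) (hA : A.Finite) (hP : P A) :
    ∃ S ⊆ A, IsPrimitive d P S := by
  have key : ∀ n : ℕ, ∀ A : Set (EuclideanSpace ℝ (Fin d)), A.Finite → A.ncard ≤ n → P A →
      ∃ S ⊆ A, IsPrimitive d P S := by
    intro n
    induction n with
    | zero =>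
      intro A hA hn hP
      refine ⟨A, subset_rfl, hP, ?_⟩
      intro B hB _
      have h1 := Set.ncard_lt_ncard hB hA
      omega
    | succ n ih =>
      intro A hA hn hP
      by_cases h : ∀ B : Set (EuclideanSpace ℝ (Fin d)), B ⊂ A → ¬ P B
      · exact ⟨A, subset_rfl, hP, h⟩
      · push Not at h
        obtain ⟨B, hB, hPB⟩ := h
        have h1 := Set.ncard_lt_ncard hB hA
        obtain ⟨S, hS, hS'⟩ := ih B (hA.subset hB.1) (by omega) hPB
        exact ⟨S, hS.trans hB.1, hS'⟩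
  exact key _ A hA le_rfl hP

section poly

variable {d : ℕ} {ι : Type} [Fintype ι] (f : ι → (EuclideanSpace ℝ (Fin d) →L[ℝ] ℝ)) (c : ι → ℝ)

def PK : Set (EuclideanSpace ℝ (Fin d)) := {x | ∀ i, f i x ≤ c i}

theorem interior_PK (hf : ∀ i, ∃ w, 0 < f i w) : interior (PK f c) = {x | ∀ i, f i x < c i} := by
  apply le_antisymm
  · intro x hx i
    have hxK : x ∈ PK f c := interior_subset hx
    refine lt_of_le_of_ne (hxK i) ?_
    intro heq
    obtain ⟨w, hw⟩ := hf i
    have h1 : Tendsto (fun t : ℝ => x + t • w) (𝓝[>] 0) (𝓝 (x + (0 : ℝ) • w)) := by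
      have : Continuous (fun t : ℝ => x + t • w) := by fun_prop
      exact (this.tendsto 0).mono_left nhdsWithin_le_nhds
    rw [zero_smul, add_zero] at h1
    have h2 : ∀ᶠ t : ℝ in 𝓝[>] 0, x + t • w ∈ interior (PK f c) :=
      h1 (isOpen_interior.mem_nhds hx)
    obtain ⟨t, ht, ht'⟩ := (h2.and self_mem_nhdsWithin).exists
    have h3 := (interior_subset ht) i
    rw [map_add, map_smul, heq, smul_eq_mul] at h3
    have h4 : 0 < t * f i w := mul_pos ht' hw
    linarith
  · apply interior_maximal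
    · intro x hx i
      exact (hx i).le
    · have : {x | ∀ i, f i x < c i} = ⋂ i, {x | f i x < c i} := by
        ext x; simp
      rw [this]
      exact isOpen_iInter_of_finite (fun i => isOpen_lt (f i).continuous continuous_const)

theorem convex_PK : Convex ℝ (PK f c) := by
  intro x hx y hy a b ha hb hab i
  rw [map_add, map_smul, map_smul, smul_eq_mul, smul_eq_mul]
  have h1 := mul_le_mul_of_nonneg_left (hx i) ha
  have h2 := mul_le_mul_of_nonneg_left (hy i) hb
  have h3 : c i = a * c i + b * c i := by rw [← add_mul, hab, one_mul]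
  linarith

theorem closed_PK : IsClosed (PK f c) := by
  have : PK f c = ⋂ i, {x | f i x ≤ c i} := by
    ext x; simp [PK]
  rw [this]
  exact isClosed_iInter (fun i => isClosed_le (f i).continuous continuous_const)

theorem ill_iff (hf : ∀ i, ∃ w, 0 < f i w) (x : EuclideanSpace ℝ (Fin d)) (hx : x ∈ PK f c)
    (u : EuclideanSpace ℝ (Fin d)) :
    (∃ ε : ℝ, 0 < ε ∧ ε < 1 ∧ x + ε • u ∈ interior (PK f c)) ↔ ∀ i, f i x = c i → f i u < 0 := by
  rw [interior_PK f c hf]
  constructor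
  · rintro ⟨ε, h0, h1, h⟩ i hi
    have h2 := h i
    rw [map_add, map_smul, hi, smul_eq_mul] at h2
    by_contra hcon
    rw [not_lt] at hcon
    have := mul_nonneg h0.le hcon
    linarith
  · intro h
    have h1 : ∀ i, ∀ᶠ ε : ℝ in 𝓝[>] 0, f i (x + ε • u) < c i := by
      intro i
      by_cases hi : f i x = c i
      · filter_upwards [self_mem_nhdsWithin] with ε hε
        rw [map_add, map_smul, hi, smul_eq_mul]
        have := mul_neg_of_pos_of_neg (show (0 : ℝ) < ε from hε) (h i hi)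
        linarith
      · have hlt := lt_of_le_of_ne (hx i) hi
        have h2 : Tendsto (fun t : ℝ => f i (x + t • u)) (𝓝[>] 0) (𝓝 (f i (x + (0 : ℝ) • u))) := by
          have : Continuous (fun t : ℝ => f i (x + t • u)) := by fun_prop
          exact (this.tendsto 0).mono_left nhdsWithin_le_nhds
        rw [zero_smul, add_zero] at h2
        exact h2.eventually (gt_mem_nhds hlt)
    have h2 : ∀ᶠ ε : ℝ in 𝓝[>] 0, ε < 1 := by
      have : Tendsto (fun t : ℝ => t) (𝓝[>] 0) (𝓝 0) := tendsto_id.mono_left nhdsWithin_le_nhds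
      exact this.eventually (gt_mem_nhds zero_lt_one)
    obtain ⟨ε, ⟨h3, h4⟩, h5⟩ := (((eventually_all.2 h1).and h2).and self_mem_nhdsWithin).exists
    exact ⟨ε, h5, h4, h3⟩

end poly

abbrev E3 : Type := EuclideanSpace ℝ (Fin 3)

noncomputable section

def vec (a b c : ℝ) : E3 := WithLp.toLp 2 ![a, b, c]

abbrev Jx (m : ℕ) : Type := Option (Option {k : ℤ // k ∈ Finset.Icc (-(m : ℤ)) (m : ℤ)})

def pr (i : Fin 3) : E3 →L[ℝ] ℝ := EuclideanSpace.proj i

theorem pr0 (a b c : ℝ) : pr 0 (vec a b c) = a := rfl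
theorem pr1 (a b c : ℝ) : pr 1 (vec a b c) = b := rfl
theorem pr2 (a b c : ℝ) : pr 2 (vec a b c) = c := rfl

def ff (m : ℕ) : Jx m → (E3 →L[ℝ] ℝ)
  | none => pr 2
  | some none => pr 1 - ((m : ℝ) ^ 2 - m) • pr 2
  | some (some k) => (2 * (k.1 : ℝ)) • pr 0 - pr 1 - ((k.1 : ℝ) ^ 2 + 1) • pr 2

def cc (m : ℕ) : Jx m → ℝ
  | none => 0
  | some none => (m : ℝ) ^ 2 - m
  | some (some k) => (k.1 : ℝ) ^ 2 + 1

theorem ff_none (m : ℕ) (x : E3) : ff m none x = pr 2 x := rfl
theorem ff_top (m : ℕ) (x : E3) : ff m (some none) x = pr 1 x - ((m : ℝ) ^ 2 - m) * pr 2 x := rfl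
theorem ff_k (m : ℕ) (k : {k : ℤ // k ∈ Finset.Icc (-(m : ℤ)) (m : ℤ)}) (x : E3) :
    ff m (some (some k)) x = 2 * (k.1 : ℝ) * pr 0 x - pr 1 x - ((k.1 : ℝ) ^ 2 + 1) * pr 2 x := rfl

theorem ff_pos (m : ℕ) (i : Jx m) : ∃ w, 0 < ff m i w := by
  rcases i with _ | _ | k
  · exact ⟨vec 0 0 1, by rw [ff_none, pr2]; norm_num⟩
  · exact ⟨vec 0 1 0, by rw [ff_top, pr1, pr2]; norm_num⟩
  · exact ⟨vec 0 (-1) 0, by rw [ff_k, pr0, pr1, pr2]; norm_num⟩

/-- the directions -/
def uu (j : ℤ) : E3 := vec (-(2 * (j : ℝ) + 1) / 2) (2 - (j : ℝ) * (j + 1)) (-1)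

theorem ff_uu_none (m : ℕ) (j : ℤ) : ff m none (uu j) = -1 := rfl

theorem ff_uu_k (m : ℕ) (k : {k : ℤ // k ∈ Finset.Icc (-(m : ℤ)) (m : ℤ)}) (j : ℤ) :
    ff m (some (some k)) (uu j) = (((k.1 - j) * (k.1 - j - 1) - 1 : ℤ) : ℝ) := by
  rw [ff_k]
  unfold uu
  rw [pr0, pr1, pr2]
  push_cast
  ring

theorem ff_uu_top (m : ℕ) (j : ℤ) :
    ff m (some none) (uu j) = 2 - (j : ℝ) * (j + 1) + ((m : ℝ) ^ 2 - m) := by
  rw [ff_top]
  unfold uu
  rw [pr1, pr2]
  ring

/-- the vertices -/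
def vv (j : ℤ) : E3 := vec ((2 * (j : ℝ) + 1) / 2) ((j : ℝ) ^ 2 + j - 1) 0

theorem ff_vv_k (m : ℕ) (k : {k : ℤ // k ∈ Finset.Icc (-(m : ℤ)) (m : ℤ)}) (j : ℤ) :
    ff m (some (some k)) (vv j) = ((k.1 : ℝ) ^ 2 + 1) - (((k.1 - j) * (k.1 - j - 1) : ℤ) : ℝ) := by
  rw [ff_k]
  unfold vv
  rw [pr0, pr1, pr2]
  push_cast
  ring

theorem int_prod_nonneg (a : ℤ) : 0 ≤ a * (a - 1) := by
  rcases le_or_gt a 0 with h | h
  · exact mul_nonneg_of_nonpos_of_nonpos h (by omega)
  · exact mul_nonneg h.le (by omega)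

theorem top_lt (m : ℕ) (j : ℤ) (h1 : -(m : ℤ) ≤ j) (h2 : j < m) :
    (j : ℝ) ^ 2 + j - 1 < (m : ℝ) ^ 2 - m := by
  have h3 : j ^ 2 + j ≤ (m : ℤ) ^ 2 - m := by nlinarith
  have h4 : (j : ℝ) ^ 2 + j ≤ (m : ℝ) ^ 2 - m := by exact_mod_cast h3
  linarith

theorem vv_mem (m : ℕ) (j : ℤ) (h1 : -(m : ℤ) ≤ j) (h2 : j < m) : vv j ∈ PK (ff m) (cc m) := by
  intro i
  rcases i with _ | _ | k
  · rw [ff_none]
    exact le_rfl
  · rw [ff_top]
    unfold vv
    rw [pr1, pr2]
    have := top_lt m j h1 h2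
    change _ ≤ (m : ℝ) ^ 2 - m
    linarith
  · rw [ff_vv_k]
    have := int_prod_nonneg (k.1 - j)
    have h3 : (0 : ℝ) ≤ (((k.1 - j) * (k.1 - j - 1) : ℤ) : ℝ) := by exact_mod_cast this
    change _ ≤ (k.1 : ℝ) ^ 2 + 1
    linarith

theorem frontier_PK {m : ℕ} {x : E3} (hx : x ∈ frontier (PK (ff m) (cc m))) :
    x ∈ PK (ff m) (cc m) := by
  have := frontier_subset_closure hx
  rwa [(closed_PK (ff m) (cc m)).closure_eq] at this

theorem vv_frontier (m : ℕ) (j : ℤ) (h1 : -(m : ℤ) ≤ j) (h2 : j < m) :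
    vv j ∈ frontier (PK (ff m) (cc m)) := by
  refine ⟨subset_closure (vv_mem m j h1 h2), ?_⟩
  rw [interior_PK (ff m) (cc m) (ff_pos m)]
  intro h
  have h3 := h none
  rw [ff_none] at h3
  exact lt_irrefl _ h3

/-- each boundary point is illuminated by one of the directions -/
theorem all_ill (m : ℕ) (hm : 2 ≤ m) (x : E3) (hx : x ∈ PK (ff m) (cc m)) :
    (∀ i, ff m i x = cc m i → ff m i (vec 0 0 1) < 0) ∨
    ∃ j : ℤ, -(m : ℤ) - 1 ≤ j ∧ j ≤ m ∧ ∀ i, ff m i x = cc m i → ff m i (uu j) < 0 := by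
  have hmr : (2 : ℝ) ≤ m := by exact_mod_cast hm
  by_cases hz : pr 2 x = 0
  swap
  · left
    intro i hi
    rcases i with _ | _ | k
    · exact absurd hi hz
    · rw [ff_top, pr1, pr2]
      nlinarith
    · rw [ff_k, pr0, pr1, pr2]
      have := sq_nonneg (k.1 : ℝ)
      linarith
  right
  have hk : ∀ k : {k : ℤ // k ∈ Finset.Icc (-(m : ℤ)) (m : ℤ)},
      2 * (k.1 : ℝ) * pr 0 x - pr 1 x ≤ (k.1 : ℝ) ^ 2 + 1 := by
    intro k
    have h1 := hx (some (some k))
    rw [ff_k, hz] at h1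
    change _ ≤ (k.1 : ℝ) ^ 2 + 1 at h1
    linarith
  have htop : pr 1 x ≤ (m : ℝ) ^ 2 - m := by
    have h1 := hx (some none)
    rw [ff_top, hz] at h1
    change _ ≤ (m : ℝ) ^ 2 - m at h1
    linarith
  let act : {k : ℤ // k ∈ Finset.Icc (-(m : ℤ)) (m : ℤ)} → Prop := fun k =>
    2 * (k.1 : ℝ) * pr 0 x - pr 1 x = (k.1 : ℝ) ^ 2 + 1
  have hact : ∀ k, ff m (some (some k)) x = cc m (some (some k)) → act k := by
    intro k h
    rw [ff_k, hz] at h
    change _ = (k.1 : ℝ) ^ 2 + 1 at h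
    change _ = _
    linarith
  -- two active constraints are adjacent
  have hadj : ∀ k l, act k → act l → k.1 < l.1 → l.1 = k.1 + 1 := by
    intro k l hk' hl' hlt
    by_contra hne
    have h2 : k.1 + 1 < l.1 := by omega
    have hmem : k.1 + 1 ∈ Finset.Icc (-(m : ℤ)) (m : ℤ) := by
      have a1 := Finset.mem_Icc.1 k.2
      have a2 := Finset.mem_Icc.1 l.2
      rw [Finset.mem_Icc]
      constructor <;> omega
    have h3 := hk ⟨k.1 + 1, hmem⟩
    push_cast at h3
    have hk'' : 2 * (k.1 : ℝ) * pr 0 x - pr 1 x = (k.1 : ℝ) ^ 2 + 1 := hk'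
    have hl'' : 2 * (l.1 : ℝ) * pr 0 x - pr 1 x = (l.1 : ℝ) ^ 2 + 1 := hl'
    have h4 : (k.1 : ℝ) + 1 < l.1 := by exact_mod_cast h2
    have h5 : ((l.1 : ℝ) - k.1) * (2 * pr 0 x - (l.1 + k.1)) = 0 := by
      linear_combination hl'' - hk''
    have h6 : 2 * pr 0 x = l.1 + k.1 := by
      rcases mul_eq_zero.1 h5 with h | h
      · linarith
      · linarith
    have h7 : pr 1 x = (k.1 : ℝ) * (l.1 + k.1) - (k.1 : ℝ) ^ 2 - 1 := by
      rw [← h6]
      linarith
    rw [h7] at h3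
    have h8 : 2 * ((k.1 : ℝ) + 1) * pr 0 x = ((k.1 : ℝ) + 1) * (l.1 + k.1) := by
      rw [← h6]; ring
    rw [h8] at h3
    nlinarith
  by_cases ht : pr 1 x = (m : ℝ) ^ 2 - m
  · -- top active
    have hext : ∀ k, act k → k.1 = m ∨ k.1 = -(m : ℤ) := by
      intro k hk'
      have hk'' : 2 * (k.1 : ℝ) * pr 0 x - pr 1 x = (k.1 : ℝ) ^ 2 + 1 := hk'
      by_contra hne
      push Not at hne
      have a1 := Finset.mem_Icc.1 k.2
      have hlo : -(m : ℤ) + 1 ≤ k.1 := by omega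
      have hhi : k.1 + 1 ≤ m := by omega
      have h3 := hk ⟨k.1 + 1, by rw [Finset.mem_Icc]; constructor <;> omega⟩
      have h4 := hk ⟨k.1 - 1, by rw [Finset.mem_Icc]; constructor <;> omega⟩
      push_cast at h3 h4
      have h5 : 2 * pr 0 x ≤ 2 * k.1 + 1 := by nlinarith
      have h6 : 2 * (k.1 : ℝ) - 1 ≤ 2 * pr 0 x := by nlinarith
      have hlo' : -(m : ℝ) + 1 ≤ k.1 := by exact_mod_cast hlo
      have hhi' : (k.1 : ℝ) + 1 ≤ m := by exact_mod_cast hhi
      rcases le_or_gt (0 : ℝ) k.1 with h7 | h7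
      · have h8 : (k.1 : ℝ) * (2 * pr 0 x) ≤ k.1 * (2 * k.1 + 1) := mul_le_mul_of_nonneg_left h5 h7
        nlinarith
      · have h8 : (k.1 : ℝ) * (2 * pr 0 x) ≤ k.1 * (2 * k.1 - 1) :=
          mul_le_mul_of_nonpos_left h6 h7.le
        nlinarith
    by_cases hneg : ∃ k, act k ∧ k.1 = -(m : ℤ)
    · obtain ⟨k, hk1, hk2⟩ := hneg
      refine ⟨-(m : ℤ) - 1, le_rfl, by omega, ?_⟩
      intro i hi
      rcases i with _ | _ | l
      · rw [ff_uu_none]; norm_num
      · rw [ff_uu_top]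
        push_cast
        nlinarith
      · have hl := hact l hi
        have hl2 : l.1 = -(m : ℤ) := by
          rcases hext l hl with h | h
          · exfalso
            have := hadj k l hk1 hl (by omega)
            omega
          · exact h
        rw [ff_uu_k, hl2]
        have : (-(m : ℤ) - (-(m : ℤ) - 1)) * (-(m : ℤ) - (-(m : ℤ) - 1) - 1) - 1 = -1 := by ring
        rw [this]
        norm_num
    · refine ⟨m, by omega, le_rfl, ?_⟩
      intro i hi
      rcases i with _ | _ | l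
      · rw [ff_uu_none]; norm_num
      · rw [ff_uu_top]
        push_cast
        nlinarith
      · have hl := hact l hi
        have hl2 : l.1 = (m : ℤ) := by
          rcases hext l hl with h | h
          · exact h
          · exact absurd ⟨l, hl, h⟩ hneg
        rw [ff_uu_k, hl2]
        have : ((m : ℤ) - m) * ((m : ℤ) - m - 1) - 1 = -1 := by ring
        rw [this]
        norm_num
  · -- top not active
    have hnt : ff m (some none) x ≠ cc m (some none) := by
      intro h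
      rw [ff_top, hz] at h
      change _ = (m : ℝ) ^ 2 - m at h
      apply ht
      linarith
    by_cases hex : ∃ k, act k
    · obtain ⟨k, hk'⟩ := hex
      by_cases hprev : ∃ l, act l ∧ l.1 = k.1 - 1
      · obtain ⟨l, hl, hl2⟩ := hprev
        have a1 := Finset.mem_Icc.1 l.2
        refine ⟨l.1, by omega, a1.2, ?_⟩
        intro i hi
        rcases i with _ | _ | r
        · rw [ff_uu_none]; norm_num
        · exact absurd hi hnt
        · have hr := hact r hi
          have b1 := hadj r l hr hl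
          have b2 := hadj l r hl hr
          have b3 := hadj r k hr hk'
          have b4 := hadj k r hk' hr
          have hr2 : r.1 = l.1 ∨ r.1 = l.1 + 1 := by omega
          rw [ff_uu_k]
          rcases hr2 with h | h
          · rw [h]
            have : (l.1 - l.1) * (l.1 - l.1 - 1) - 1 = -1 := by ring
            rw [this]; norm_num
          · rw [h]
            have : (l.1 + 1 - l.1) * (l.1 + 1 - l.1 - 1) - 1 = -1 := by ring
            rw [this]; norm_num
      · have a1 := Finset.mem_Icc.1 k.2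
        refine ⟨k.1, by omega, a1.2, ?_⟩
        intro i hi
        rcases i with _ | _ | r
        · rw [ff_uu_none]; norm_num
        · exact absurd hi hnt
        · have hr := hact r hi
          have b3 := hadj r k hr hk'
          have b4 := hadj k r hk' hr
          have hr2 : r.1 = k.1 ∨ r.1 = k.1 + 1 := by
            by_contra hcon
            push Not at hcon
            rcases lt_trichotomy r.1 k.1 with h | h | h
            · exact hprev ⟨r, hr, by have := b3 h; omega⟩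
            · exact hcon.1 h
            · exact hcon.2 (b4 h)
          rw [ff_uu_k]
          rcases hr2 with h | h
          · rw [h]
            have : (k.1 - k.1) * (k.1 - k.1 - 1) - 1 = -1 := by ring
            rw [this]; norm_num
          · rw [h]
            have : (k.1 + 1 - k.1) * (k.1 + 1 - k.1 - 1) - 1 = -1 := by ring
            rw [this]; norm_num
    · refine ⟨0, by omega, by omega, ?_⟩
      intro i hi
      rcases i with _ | _ | r
      · rw [ff_uu_none]; norm_num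
      · exact absurd hi hnt
      · exact absurd ⟨r, hact r hi⟩ hex

def nrm (u : E3) : E3 := ‖u‖⁻¹ • u

theorem nrm_norm (u : E3) (hu : u ≠ 0) : ‖nrm u‖ = 1 := by
  unfold nrm
  rw [norm_smul, norm_inv, norm_norm, inv_mul_cancel₀ (norm_ne_zero_iff.2 hu)]

theorem nrm_neg (m : ℕ) (i : Jx m) (u : E3) (hu : u ≠ 0) : ff m i (nrm u) < 0 ↔ ff m i u < 0 := by
  unfold nrm
  rw [map_smul, smul_eq_mul]
  have : 0 < ‖u‖⁻¹ := inv_pos.2 (norm_pos_iff.2 hu)
  constructor
  · intro h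
    by_contra hcon
    rw [not_lt] at hcon
    have := mul_nonneg this.le hcon
    linarith
  · intro h
    exact mul_neg_of_pos_of_neg this h

theorem uu_ne (j : ℤ) : uu j ≠ 0 := by
  intro h
  have h1 := congrArg (pr 2) h
  unfold uu at h1
  rw [pr2, map_zero] at h1
  norm_num at h1

theorem e3_ne : vec 0 0 1 ≠ 0 := by
  intro h
  have h1 := congrArg (pr 2) h
  rw [pr2, map_zero] at h1
  norm_num at h1

/-- the illuminating set -/
def UU (m : ℕ) : Set E3 := (fun j => nrm (uu j)) '' (Icc (-(m : ℤ) - 1) m) ∪ {nrm (vec 0 0 1)}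

theorem outer_UU (m : ℕ) (hm : 2 ≤ m) : OuterIll 3 (PK (ff m) (cc m)) (UU m) := by
  constructor
  · rintro u (⟨j, -, rfl⟩ | hu)
    · exact nrm_norm _ (uu_ne j)
    · rw [mem_singleton_iff] at hu
      subst hu
      exact nrm_norm _ e3_ne
  · intro x hx
    have hxK := frontier_PK hx
    rcases all_ill m hm x hxK with h | ⟨j, hj1, hj2, h⟩
    · refine ⟨nrm (vec 0 0 1), Or.inr rfl, ?_⟩
      rw [ill_iff (ff m) (cc m) (ff_pos m) x hxK]
      intro i hi
      rw [nrm_neg m i _ e3_ne]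
      exact h i hi
    · refine ⟨nrm (uu j), Or.inl ⟨j, ⟨hj1, hj2⟩, rfl⟩, ?_⟩
      rw [ill_iff (ff m) (cc m) (ff_pos m) x hxK]
      intro i hi
      rw [nrm_neg m i _ (uu_ne j)]
      exact h i hi

theorem only_uu (m : ℕ) (j : ℤ) (h1 : -(m : ℤ) ≤ j) (h2 : j < m) (u : E3) (hu : u ∈ UU m)
    (hill : ∃ ε : ℝ, 0 < ε ∧ ε < 1 ∧ vv j + ε • u ∈ interior (PK (ff m) (cc m))) :
    u = nrm (uu j) := by
  rw [ill_iff (ff m) (cc m) (ff_pos m) _ (vv_mem m j h1 h2)] at hill
  rcases hu with ⟨i, -, rfl⟩ | hu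
  · have e1 := hill (some (some ⟨j, by rw [Finset.mem_Icc]; constructor <;> omega⟩)) (by
      rw [ff_vv_k]
      change _ = (j : ℝ) ^ 2 + 1
      push_cast
      ring)
    have e2 := hill (some (some ⟨j + 1, by rw [Finset.mem_Icc]; constructor <;> omega⟩)) (by
      rw [ff_vv_k]
      change _ = ((j + 1 : ℤ) : ℝ) ^ 2 + 1
      push_cast
      ring)
    rw [nrm_neg m _ _ (uu_ne i), ff_uu_k] at e1 e2
    have e3 : (j - i) * (j - i - 1) - 1 < 0 := by exact_mod_cast e1
    have e4 : (j + 1 - i) * (j + 1 - i - 1) - 1 < 0 := by exact_mod_cast e2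
    have e5 : j - i = 0 := by
      by_contra hne
      rcases lt_or_gt_of_ne hne with h | h
      · nlinarith
      · nlinarith
    have : i = j := by omega
    rw [this]
  · exfalso
    rw [mem_singleton_iff] at hu
    subst hu
    have e1 := hill none rfl
    rw [nrm_neg m _ _ e3_ne, ff_none, pr2] at e1
    norm_num at e1

theorem body (m : ℕ) (hm : 2 ≤ m) : IsBody 3 (PK (ff m) (cc m)) := by
  have hmr : (2 : ℝ) ≤ m := by exact_mod_cast hm
  refine ⟨convex_PK _ _, ?_, ?_⟩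
  · apply Metric.isCompact_of_isClosed_isBounded (closed_PK _ _)
    rw [isBounded_iff_forall_norm_le]
    refine ⟨4 * ((m : ℝ) ^ 2 + 1), fun x hx => ?_⟩
    have h0 : pr 2 x ≤ 0 := hx none
    have ht : pr 1 x - ((m : ℝ) ^ 2 - m) * pr 2 x ≤ (m : ℝ) ^ 2 - m := hx (some none)
    have hz0 := hx (some (some ⟨0, by rw [Finset.mem_Icc]; constructor <;> omega⟩))
    have hzm := hx (some (some ⟨(m : ℤ), by rw [Finset.mem_Icc]; constructor <;> omega⟩))
    have hzn := hx (some (some ⟨-(m : ℤ), by rw [Finset.mem_Icc]; constructor <;> omega⟩))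
    rw [ff_k] at hz0 hzm hzn
    change _ ≤ ((0 : ℤ) : ℝ) ^ 2 + 1 at hz0
    change _ ≤ (((m : ℤ)) : ℝ) ^ 2 + 1 at hzm
    change _ ≤ ((-(m : ℤ) : ℤ) : ℝ) ^ 2 + 1 at hzn
    push_cast at hz0 hzm hzn
    have hH : (0 : ℝ) < (m : ℝ) ^ 2 - m := by nlinarith
    have hz1 : -1 ≤ pr 2 x := by
      by_contra hcon
      rw [not_le] at hcon
      nlinarith
    have hy1 : pr 1 x ≤ (m : ℝ) ^ 2 := by nlinarith
    have hy2 : -1 ≤ pr 1 x := by nlinarith
    have hx1 : pr 0 x ≤ (m : ℝ) ^ 2 + 1 := by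
      have : 2 * (m : ℝ) * pr 0 x ≤ 2 * ((m : ℝ) ^ 2 + 1) := by nlinarith
      nlinarith
    have hx2 : -((m : ℝ) ^ 2 + 1) ≤ pr 0 x := by
      have : -(2 * (m : ℝ) * pr 0 x) ≤ 2 * ((m : ℝ) ^ 2 + 1) := by nlinarith
      nlinarith
    have hn : ‖x‖ = Real.sqrt ((pr 0 x) ^ 2 + (pr 1 x) ^ 2 + (pr 2 x) ^ 2) := by
      rw [EuclideanSpace.norm_eq, Fin.sum_univ_three]
      simp only [Real.norm_eq_abs, sq_abs]
      rfl
    rw [hn, Real.sqrt_le_left (by positivity)]
    have q0 : (pr 0 x) ^ 2 ≤ ((m : ℝ) ^ 2 + 1) ^ 2 := sq_le_sq' hx2 hx1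
    have q1 : (pr 1 x) ^ 2 ≤ ((m : ℝ) ^ 2 + 1) ^ 2 := sq_le_sq' (by nlinarith) (by linarith)
    have q2 : (pr 2 x) ^ 2 ≤ ((m : ℝ) ^ 2 + 1) ^ 2 := sq_le_sq' (by nlinarith) (by nlinarith)
    nlinarith
  · rw [interior_PK _ _ (ff_pos m)]
    refine ⟨vec 0 0 (-1 / 2), ?_⟩
    intro i
    rcases i with _ | _ | k
    · rw [ff_none, pr2]
      change _ < (0 : ℝ)
      norm_num
    · rw [ff_top, pr1, pr2]
      change _ < (m : ℝ) ^ 2 - m
      nlinarith
    · rw [ff_k, pr0, pr1, pr2]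
      change _ < (k.1 : ℝ) ^ 2 + 1
      nlinarith [sq_nonneg (k.1 : ℝ)]

theorem outerUnbounded : OuterUnbounded 3 := by
  intro n
  let m : ℕ := n + 2
  have hm : 2 ≤ m := by omega
  have hfin : (UU m).Finite := ((finite_Icc _ _).image _).union (finite_singleton _)
  obtain ⟨S, hS, hSp⟩ := exists_min (OuterIll 3 (PK (ff m) (cc m))) (UU m) hfin (outer_UU m hm)
  refine ⟨PK (ff m) (cc m), S, body m hm, hSp, ?_⟩
  have hmem : ∀ j : ℤ, -(m : ℤ) ≤ j → j < m → nrm (uu j) ∈ S := by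
    intro j h1 h2
    obtain ⟨u, hu, hill⟩ := hSp.1.2 (vv j) (vv_frontier m j h1 h2)
    rw [only_uu m j h1 h2 u (hS hu) hill] at hu
    exact hu
  have hinj : ∀ i j : ℤ, -(m : ℤ) ≤ j → j < m → -(m : ℤ) ≤ i → i < m →
      nrm (uu i) = nrm (uu j) → i = j := by
    intro i j h1 h2 h3 h4 h
    obtain ⟨u, hu, hill⟩ := hSp.1.2 (vv j) (vv_frontier m j h1 h2)
    rw [only_uu m j h1 h2 u (hS hu) hill, ← h] at hill
    rw [ill_iff (ff m) (cc m) (ff_pos m) _ (vv_mem m j h1 h2)] at hill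
    have e1 := hill (some (some ⟨j, by rw [Finset.mem_Icc]; constructor <;> omega⟩)) (by
      rw [ff_vv_k]
      change _ = (j : ℝ) ^ 2 + 1
      push_cast
      ring)
    have e2 := hill (some (some ⟨j + 1, by rw [Finset.mem_Icc]; constructor <;> omega⟩)) (by
      rw [ff_vv_k]
      change _ = ((j + 1 : ℤ) : ℝ) ^ 2 + 1
      push_cast
      ring)
    rw [nrm_neg m _ _ (uu_ne i), ff_uu_k] at e1 e2
    have e3 : (j - i) * (j - i - 1) - 1 < 0 := by exact_mod_cast e1
    have e4 : (j + 1 - i) * (j + 1 - i - 1) - 1 < 0 := by exact_mod_cast e2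
    have e5 : j - i = 0 := by
      by_contra hne
      rcases lt_or_gt_of_ne hne with h | h
      · nlinarith
      · nlinarith
    omega
  let g : Fin n → E3 := fun i => nrm (uu (i : ℕ))
  have hg : Function.Injective g := by
    intro a b hab
    have := hinj (a : ℕ) (b : ℕ) (by omega) (by have := b.2; omega) (by omega)
      (by have := a.2; omega) hab
    exact Fin.ext (by exact_mod_cast this)
  have h1 : (range g).encard = n := by
    rw [← image_univ, hg.encard_image, encard_univ]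
    simp
  rw [← h1]
  apply encard_le_encard
  rintro _ ⟨i, rfl⟩
  exact hmem _ (by omega) (by have := i.2; omega)

end

end Pool.Agent.H8.Ill
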