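import Mathlib
import Pool.Agent.H8.Ill.Defs
import Pool.Agent.H8.Ill.Outer

set_option autoImplicit false

namespace Pool.Agent.H8.Ill

open Set Filter Topology

noncomputable section

abbrev E4 : Type := EuclideanSpace ℝ (Fin 4)

def vec4 (a b c d : ℝ) : E4 := WithLp.toLp 2 ![a, b, c, d]

def q (i : Fin 4) : E4 →L[ℝ] ℝ := EuclideanSpace.proj i

theorem q0 (a b c d : ℝ) : q 0 (vec4 a b c d) = a := rfl
theorem q1 (a b c d : ℝ) : q 1 (vec4 a b c d) = b := rfl
theorem q2 (a b c d : ℝ) : q 2 (vec4 a b c d) = c := rfl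
theorem q3 (a b c d : ℝ) : q 3 (vec4 a b c d) = d := rfl

theorem ext4 (x y : E4) (h0 : q 0 x = q 0 y) (h1 : q 1 x = q 1 y) (h2 : q 2 x = q 2 y)
    (h3 : q 3 x = q 3 y) : x = y := by
  ext i
  fin_cases i
  · exact h0
  · exact h1
  · exact h2
  · exact h3

def gam (θ : ℝ) : E4 := vec4 (Real.cos θ) (Real.sin θ) (Real.cos (2 * θ)) (Real.sin (2 * θ))

/-- linear part of the separating functional -/
def Lf (s t : ℝ) : E4 →L[ℝ] ℝ :=
  (-4 * (Real.cos s + Real.cos t)) • q 0 + (-4 * (Real.sin s + Real.sin t)) • q 1 +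
    (2 * Real.cos (s + t)) • q 2 + (2 * Real.sin (s + t)) • q 3

def kap (s t : ℝ) : ℝ := 4 + 2 * Real.cos (s - t)

theorem Lf_gam (s t θ : ℝ) : kap s t + Lf s t (gam θ) =
    (2 - 2 * Real.cos (θ - s)) * (2 - 2 * Real.cos (θ - t)) := by
  have h1 : Lf s t (gam θ) = (-4 * (Real.cos s + Real.cos t)) * Real.cos θ +
      (-4 * (Real.sin s + Real.sin t)) * Real.sin θ + (2 * Real.cos (s + t)) * Real.cos (2 * θ) +
      (2 * Real.sin (s + t)) * Real.sin (2 * θ) := rfl
  rw [h1]
  unfold kap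
  rw [Real.cos_sub, Real.cos_sub, Real.cos_sub, Real.cos_add, Real.sin_add, Real.cos_two_mul,
    Real.sin_two_mul]
  have h2 := Real.sin_sq_add_cos_sq θ
  linear_combination (-4 * Real.sin s * Real.sin t) * h2

theorem sq_form (s t θ : ℝ) : (2 - 2 * Real.cos (θ - s)) * (2 - 2 * Real.cos (θ - t)) =
    4 * (Real.cos (θ - (s + t) / 2) - Real.cos ((s - t) / 2)) ^ 2 := by
  have e1 : θ - s = (θ - (s + t) / 2) - (s - t) / 2 := by ring
  have e2 : θ - t = (θ - (s + t) / 2) + (s - t) / 2 := by ring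
  rw [e1, e2]
  generalize θ - (s + t) / 2 = p
  generalize (s - t) / 2 = a
  rw [Real.cos_sub, Real.cos_add]
  have h1 := Real.sin_sq_add_cos_sq p
  have h2 := Real.sin_sq_add_cos_sq a
  linear_combination (-4 * Real.sin a ^ 2) * h1 + (4 * Real.cos p ^ 2 - 4) * h2

theorem kap_form (s t : ℝ) : kap s t = 2 + 4 * Real.cos ((s - t) / 2) ^ 2 := by
  unfold kap
  have : s - t = 2 * ((s - t) / 2) := by ring
  conv_lhs => rw [this]
  rw [Real.cos_two_mul]
  ring

theorem half_pos' (s t θ : ℝ) (h : Real.cos (s - t) ≠ -1 / 2) :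
    0 < (1 + 1 / 2) * kap s t - (1 / 2) * (kap s t + Lf s t (gam θ)) := by
  rw [Lf_gam, sq_form, kap_form]
  have h1 : Real.cos (s - t) = 2 * Real.cos ((s - t) / 2) ^ 2 - 1 := by
    rw [← Real.cos_two_mul]
    congr 1
    ring
  rw [h1] at h
  set a := Real.cos ((s - t) / 2) with ha
  set φ := Real.cos (θ - (s + t) / 2) with hφ
  have hφ1 : φ ≤ 1 := Real.cos_le_one _
  have hφ2 : -1 ≤ φ := Real.neg_one_le_cos _
  have ha' : 4 * a ^ 2 ≠ 1 := by
    intro h2
    apply h
    linarith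
  have h3 : (1 - 2 * a) ≠ 0 := by
    intro h2
    apply ha'
    have : a = 1 / 2 := by linarith
    rw [this]; norm_num
  have h4 : (1 + 2 * a) ≠ 0 := by
    intro h2
    apply ha'
    have : a = -1 / 2 := by linarith
    rw [this]; norm_num
  have h5 : 0 < (1 - 2 * a) ^ 2 := by positivity
  have h6 : 0 < (1 + 2 * a) ^ 2 := by positivity
  have h7 : (1 + 1 / 2) * (2 + 4 * a ^ 2) - 1 / 2 * (4 * (φ - a) ^ 2) =
      3 + 4 * a ^ 2 + 4 * a * φ - 2 * φ ^ 2 := by ring
  rw [h7]
  have h8 : 0 ≤ (1 - φ) * (1 + φ) := mul_nonneg (by linarith) (by linarith)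
  have h9 : 3 + 4 * a ^ 2 + 4 * a * φ - 2 * φ ^ 2 =
      ((1 + φ) / 2) * (1 + 2 * a) ^ 2 + ((1 - φ) / 2) * (1 - 2 * a) ^ 2 + 2 * ((1 - φ) * (1 + φ)) := by
    ring
  rw [h9]
  rcases le_or_gt φ 0 with h10 | h10
  · have : 0 < ((1 - φ) / 2) * (1 - 2 * a) ^ 2 := mul_pos (by linarith) h5
    have : 0 ≤ ((1 + φ) / 2) * (1 + 2 * a) ^ 2 := mul_nonneg (by linarith) h6.le
    linarith
  · have : 0 ≤ ((1 - φ) / 2) * (1 - 2 * a) ^ 2 := mul_nonneg (by linarith) h5.le
    have : 0 < ((1 + φ) / 2) * (1 + 2 * a) ^ 2 := mul_pos (by linarith) h6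
    linarith

section

variable (m : ℕ)

def ang (k : ℕ) : ℝ := Real.pi * k / (12 * m)

def g (k : ℕ) : E4 := gam (ang m k)

theorem ang_add (hm : 0 < m) (k a : ℕ) : ang m (k + a * m) = ang m k + Real.pi * a / 12 := by
  unfold ang
  have : (m : ℝ) ≠ 0 := by positivity
  push_cast
  field_simp

theorem g_period (hm : 0 < m) (k : ℕ) : g m (k + 24 * m) = g m k := by
  unfold g
  rw [ang_add m hm]
  have : Real.pi * ((24 : ℕ) : ℝ) / 12 = 2 * Real.pi := by push_cast; ring
  rw [this]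
  unfold gam
  have e2 : 2 * (ang m k + 2 * Real.pi) = 2 * ang m k + 2 * Real.pi + 2 * Real.pi := by ring
  rw [e2, Real.cos_add_two_pi, Real.sin_add_two_pi, Real.cos_add_two_pi, Real.cos_add_two_pi,
    Real.sin_add_two_pi, Real.sin_add_two_pi]

theorem g_mod (hm : 0 < m) (k : ℕ) : g m (k % (24 * m)) = g m k := by
  have h1 : ∀ j r : ℕ, g m (r + j * (24 * m)) = g m r := by
    intro j r
    induction j with
    | zero => simp
    | succ j ih =>
      have : r + (j + 1) * (24 * m) = (r + j * (24 * m)) + 24 * m := by ring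
      rw [this, g_period m hm, ih]
  have h2 := Nat.mod_add_div k (24 * m)
  conv_rhs => rw [← h2]
  rw [mul_comm (24 * m) (k / (24 * m)), h1]

def AA : Set E4 := range (g m)

theorem AA_fin (hm : 0 < m) : (AA m).Finite := by
  refine ((finite_Iio (24 * m)).image (g m)).subset ?_
  rintro _ ⟨k, rfl⟩
  exact ⟨k % (24 * m), Nat.mod_lt _ (by positivity), g_mod m hm k⟩

theorem cos_w : Real.cos (2 * Real.pi / 3) = -1 / 2 := by
  have : 2 * Real.pi / 3 = Real.pi - Real.pi / 3 := by ring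
  rw [this, Real.cos_pi_sub, Real.cos_pi_div_three]
  norm_num

theorem cos_2w : Real.cos (2 * (2 * Real.pi / 3)) = -1 / 2 := by
  rw [Real.cos_two_mul, cos_w]
  norm_num

theorem cos_sum3 (x w : ℝ) (hw : Real.cos w = -1 / 2) :
    Real.cos x + Real.cos (x + w) + Real.cos (x + w + w) = 0 := by
  have h1 : Real.cos x = Real.cos (x + w - w) := by ring_nf
  rw [h1, Real.cos_sub, Real.cos_add (x + w) w, hw]
  ring

theorem sin_sum3 (x w : ℝ) (hw : Real.cos w = -1 / 2) :
    Real.sin x + Real.sin (x + w) + Real.sin (x + w + w) = 0 := by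
  have h1 : Real.sin x = Real.sin (x + w - w) := by ring_nf
  rw [h1, Real.sin_sub, Real.sin_add (x + w) w, hw]
  ring

theorem g_sum3 (hm : 0 < m) (k : ℕ) : g m k + g m (k + 8 * m) + g m (k + 16 * m) = 0 := by
  have e1 : ang m (k + 8 * m) = ang m k + 2 * Real.pi / 3 := by
    rw [ang_add m hm]; push_cast; ring
  have e2 : ang m (k + 16 * m) = ang m k + 2 * Real.pi / 3 + 2 * Real.pi / 3 := by
    rw [ang_add m hm]; push_cast; ring
  unfold g
  rw [e1, e2]
  generalize ang m k = x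
  have c1 := cos_sum3 x _ cos_w
  have s1 := sin_sum3 x _ cos_w
  have c2 := cos_sum3 (2 * x) _ cos_2w
  have s2 := sin_sum3 (2 * x) _ cos_2w
  have e3 : 2 * (x + 2 * Real.pi / 3) = 2 * x + 2 * (2 * Real.pi / 3) := by ring
  have e4 : 2 * (x + 2 * Real.pi / 3 + 2 * Real.pi / 3) =
    2 * x + 2 * (2 * Real.pi / 3) + 2 * (2 * Real.pi / 3) := by ring
  unfold gam
  rw [e3, e4]
  apply ext4
  · rw [map_add, map_add, q0, q0, q0, map_zero]; exact c1
  · rw [map_add, map_add, q1, q1, q1, map_zero]; exact s1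
  · rw [map_add, map_add, q2, q2, q2, map_zero]; exact c2
  · rw [map_add, map_add, q3, q3, q3, map_zero]; exact s2

theorem cos_ne (hm : 0 < m) (k l : ℕ) (h : ¬ k ≡ l [MOD 8 * m]) :
    Real.cos (ang m k - ang m l) ≠ -1 / 2 := by
  intro hc
  rw [← cos_w, Real.cos_eq_cos_iff] at hc
  obtain ⟨n, hn⟩ := hc
  have hpi := Real.pi_pos
  have hmr : (0 : ℝ) < m := by exact_mod_cast hm
  unfold ang at hn
  apply h
  have h1 : ((k : ℤ) - l) = 8 * m * (1 - 3 * n) ∨ ((k : ℤ) - l) = 8 * m * (3 * n - 1) := by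
    rcases hn with hn | hn
    · left
      have h2 : ((k : ℝ) - l) = 8 * m * (1 - 3 * n) := by
        field_simp at hn
        have h3 : Real.pi * ((k : ℝ) - l) = Real.pi * (8 * m * (1 - 3 * n)) := by
          linear_combination (-1 / 3 : ℝ) * Real.pi * hn
        exact mul_left_cancel₀ hpi.ne' h3
      exact_mod_cast h2
    · right
      have h2 : ((k : ℝ) - l) = 8 * m * (3 * n - 1) := by
        field_simp at hn
        have h3 : Real.pi * ((k : ℝ) - l) = Real.pi * (8 * m * (3 * n - 1)) := by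
          linear_combination (1 / 3 : ℝ) * Real.pi * hn
        exact mul_left_cancel₀ hpi.ne' h3
      exact_mod_cast h2
  rw [Nat.modEq_iff_dvd]
  push_cast
  rcases h1 with h1 | h1
  · exact ⟨3 * n - 1, by linear_combination -h1⟩
  · exact ⟨1 - 3 * n, by linear_combination -h1⟩

theorem exists_c (hm : 0 < m) : ∃ c : ℝ, 1 / 2 < c ∧ c < 1 ∧ ∀ k l j : ℕ, k < 24 * m → l < 24 * m →
    j < 24 * m → ¬ k ≡ l [MOD 8 * m] →
    0 < (1 + c) * kap (ang m k) (ang m l) -
      c * (kap (ang m k) (ang m l) + Lf (ang m k) (ang m l) (g m j)) := by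
  have h1 : ∀ k ∈ Finset.range (24 * m), ∀ᶠ c : ℝ in 𝓝[>] (1 / 2), ∀ l ∈ Finset.range (24 * m),
      ∀ j ∈ Finset.range (24 * m), ¬ k ≡ l [MOD 8 * m] →
      0 < (1 + c) * kap (ang m k) (ang m l) -
      c * (kap (ang m k) (ang m l) + Lf (ang m k) (ang m l) (g m j)) := by
    intro k _
    rw [Finset.eventually_all]
    intro l _
    rw [Finset.eventually_all]
    intro j _
    by_cases h : k ≡ l [MOD 8 * m]
    · exact Eventually.of_forall (fun c h' => absurd h h')
    · have h2 := half_pos' (ang m k) (ang m l) (ang m j) (cos_ne m hm k l h)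
      have h3 : Continuous (fun c : ℝ => (1 + c) * kap (ang m k) (ang m l) -
        c * (kap (ang m k) (ang m l) + Lf (ang m k) (ang m l) (g m j))) := by fun_prop
      have h4 := (h3.tendsto (1 / 2)).mono_left (nhdsWithin_le_nhds (s := Ioi (1 / 2 : ℝ)))
      filter_upwards [h4.eventually (lt_mem_nhds h2)] with c hc _
      exact hc
  rw [← Finset.eventually_all] at h1
  have h2 : ∀ᶠ c : ℝ in 𝓝[>] (1 / 2), c < 1 := by
    have : Tendsto (fun t : ℝ => t) (𝓝[>] (1 / 2 : ℝ)) (𝓝 (1 / 2)) :=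
      tendsto_id.mono_left nhdsWithin_le_nhds
    exact this.eventually (gt_mem_nhds (by norm_num))
  obtain ⟨c, ⟨h3, h4⟩, h5⟩ := ((h1.and h2).and self_mem_nhdsWithin).exists
  exact ⟨c, h5, h4, fun k l j hk hl hj h => h3 k (Finset.mem_range.2 hk) l (Finset.mem_range.2 hl) j
    (Finset.mem_range.2 hj) h⟩

variable (c : ℝ)

def BB : Set E4 := (fun a : E4 => (-c) • a) '' AA m

def KK : Set E4 := convexHull ℝ (AA m ∪ BB m c)

theorem g_mem (k : ℕ) : g m k ∈ KK m c := subset_convexHull ℝ _ (Or.inl ⟨k, rfl⟩)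

theorem cg_mem (k : ℕ) : (-c) • g m k ∈ KK m c :=
  subset_convexHull ℝ _ (Or.inr ⟨g m k, ⟨k, rfl⟩, rfl⟩)

theorem KK_conv : Convex ℝ (KK m c) := convex_convexHull ℝ _

theorem zero_mem (hm : 0 < m) : (0 : E4) ∈ KK m c := by
  have h1 := (KK_conv m c) (g_mem m c 0) (g_mem m c (0 + 8 * m)) (show (0 : ℝ) ≤ 1 / 2 by norm_num)
    (show (0 : ℝ) ≤ 1 / 2 by norm_num) (by norm_num)
  have h2 := (KK_conv m c) h1 (g_mem m c (0 + 16 * m)) (show (0 : ℝ) ≤ 2 / 3 by norm_num)
    (show (0 : ℝ) ≤ 1 / 3 by norm_num) (by norm_num)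
  have h3 : (2 / 3 : ℝ) • ((1 / 2 : ℝ) • g m 0 + (1 / 2 : ℝ) • g m (0 + 8 * m)) +
      (1 / 3 : ℝ) • g m (0 + 16 * m) = (1 / 3 : ℝ) • (g m 0 + g m (0 + 8 * m) + g m (0 + 16 * m)) := by
    module
  rw [h3, g_sum3 m hm, smul_zero] at h2
  exact h2

theorem neg_mem (hm : 0 < m) (hc0 : 0 < c) (hc1 : c < 1) (x : E4) (hx : x ∈ KK m c) :
    (-c) • x ∈ KK m c := by
  have h1 : KK m c ⊆ {x | (-c) • x ∈ KK m c} := by
    apply convexHull_min
    · rintro x (⟨k, rfl⟩ | ⟨_, ⟨k, rfl⟩, rfl⟩)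
      · exact cg_mem m c k
      · have h2 := (KK_conv m c) (g_mem m c k) (zero_mem m c hm) (show (0 : ℝ) ≤ c ^ 2 by positivity)
          (show (0 : ℝ) ≤ 1 - c ^ 2 by nlinarith) (by ring)
        have h3 : c ^ 2 • g m k + (1 - c ^ 2) • (0 : E4) = (-c) • ((-c) • g m k) := by module
        rw [h3] at h2
        exact h2
    · intro x hx y hy a b ha hb hab
      have h2 := (KK_conv m c) hx hy ha hb hab
      have h3 : a • (-c) • x + b • (-c) • y = (-c) • (a • x + b • y) := by module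
      rw [h3] at h2
      exact h2
  exact h1 hx

theorem g_zero (hm : 0 < m) : g m 0 = vec4 1 0 1 0 := by
  unfold g gam ang
  simp

theorem g_12 (hm : 0 < m) : g m (12 * m) = vec4 (-1) 0 1 0 := by
  have h : ang m (12 * m) = Real.pi := by
    unfold ang
    have : (m : ℝ) ≠ 0 := by positivity
    push_cast
    field_simp
  unfold g gam
  rw [h]
  simp

theorem g_6 (hm : 0 < m) : g m (6 * m) = vec4 0 1 (-1) 0 := by
  have h : ang m (6 * m) = Real.pi / 2 := by
    unfold ang
    have : (m : ℝ) ≠ 0 := by positivity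
    push_cast
    field_simp
    ring
  unfold g gam
  rw [h]
  have h2 : 2 * (Real.pi / 2) = Real.pi := by ring
  rw [h2]
  simp

theorem g_18 (hm : 0 < m) : g m (18 * m) = vec4 0 (-1) (-1) 0 := by
  have h : ang m (18 * m) = Real.pi / 2 + Real.pi := by
    unfold ang
    have : (m : ℝ) ≠ 0 := by positivity
    push_cast
    field_simp
    ring
  unfold g gam
  rw [h]
  have h2 : 2 * (Real.pi / 2 + Real.pi) = Real.pi + 2 * Real.pi := by ring
  rw [h2, Real.cos_add_two_pi, Real.sin_add_two_pi, Real.cos_add_pi, Real.sin_add_pi]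
  simp

theorem g_3 (hm : 0 < m) : g m (3 * m) = vec4 (Real.sqrt 2 / 2) (Real.sqrt 2 / 2) 0 1 := by
  have h : ang m (3 * m) = Real.pi / 4 := by
    unfold ang
    have : (m : ℝ) ≠ 0 := by positivity
    push_cast
    field_simp
    ring
  unfold g gam
  rw [h]
  have h2 : 2 * (Real.pi / 4) = Real.pi / 2 := by ring
  rw [h2]
  simp

theorem int_ne (hm : 0 < m) : (interior (KK m c)).Nonempty := by
  unfold KK
  rw [interior_convexHull_nonempty_iff_affineSpan_eq_top,
    AffineSubspace.affineSpan_eq_top_iff_vectorSpan_eq_top_of_nonempty ℝ E4 E4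
      (⟨g m 0, Or.inl ⟨0, rfl⟩⟩ : (AA m ∪ BB m c).Nonempty)]
  have hd : ∀ k l, g m k - g m l ∈ vectorSpan ℝ (AA m ∪ BB m c) := fun k l =>
    vsub_mem_vectorSpan ℝ (Or.inl ⟨k, rfl⟩) (Or.inl ⟨l, rfl⟩)
  set V := vectorSpan ℝ (AA m ∪ BB m c) with hV
  have e0 : vec4 1 0 0 0 ∈ V := by
    have h := V.smul_mem (1 / 2 : ℝ) (hd 0 (12 * m))
    rw [g_zero m hm, g_12 m hm] at h
    convert h using 1
    apply ext4 <;> rw [map_smul, map_sub] <;> simp [q0, q1, q2, q3] <;> norm_num
  have e1 : vec4 0 1 0 0 ∈ V := by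
    have h := V.smul_mem (1 / 2 : ℝ) (hd (6 * m) (18 * m))
    rw [g_6 m hm, g_18 m hm] at h
    convert h using 1
    apply ext4 <;> rw [map_smul, map_sub] <;> simp [q0, q1, q2, q3] <;> norm_num
  have e2 : vec4 0 0 1 0 ∈ V := by
    have h := V.smul_mem (1 / 2 : ℝ) (V.add_mem (V.sub_mem (hd 0 (6 * m)) e0) e1)
    rw [g_zero m hm, g_6 m hm] at h
    convert h using 1
    apply ext4 <;> rw [map_smul, map_add, map_sub, map_sub] <;> simp [q0, q1, q2, q3] <;> norm_num
  have e3 : vec4 0 0 0 1 ∈ V := by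
    have h := V.sub_mem (V.add_mem (V.add_mem (hd (3 * m) 0) e0) e2)
      (V.add_mem (V.smul_mem (Real.sqrt 2 / 2) e0) (V.smul_mem (Real.sqrt 2 / 2) e1))
    rw [g_zero m hm, g_3 m hm] at h
    convert h using 1
    apply ext4 <;> rw [map_sub, map_add, map_add, map_add, map_sub, map_smul, map_smul] <;>
      simp [q0, q1, q2, q3]
  rw [Submodule.eq_top_iff']
  intro x
  have h := V.add_mem (V.add_mem (V.smul_mem (q 0 x) e0) (V.smul_mem (q 1 x) e1))
    (V.add_mem (V.smul_mem (q 2 x) e2) (V.smul_mem (q 3 x) e3))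
  convert h using 1
  apply ext4 <;> rw [map_add, map_add, map_add, map_smul, map_smul, map_smul, map_smul] <;>
    simp [q0, q1, q2, q3]

theorem zero_int (hm : 0 < m) (hc0 : 0 < c) (hc1 : c < 1) : (0 : E4) ∈ interior (KK m c) := by
  obtain ⟨p, hp⟩ := int_ne m c hm
  have h1 := neg_mem m c hm hc0 hc1 p (interior_subset hp)
  have h2 := (KK_conv m c).combo_interior_self_mem_interior hp h1
    (show 0 < c / (1 + c) by positivity) (show 0 ≤ 1 / (1 + c) by positivity) (by field_simp; ring)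
  have h3 : (c / (1 + c)) • p + (1 / (1 + c)) • (-c) • p = 0 := by
    rw [smul_smul, ← add_smul]
    have : c / (1 + c) + 1 / (1 + c) * -c = 0 := by field_simp; ring
    rw [this, zero_smul]
  rw [h3] at h2
  exact h2

theorem pos_int (hm : 0 < m) (L : E4 →L[ℝ] ℝ) (κ : ℝ) (hκ : 0 < κ)
    (hK : ∀ x ∈ KK m c, 0 ≤ κ + L x) (p : E4) (hp : p ∈ interior (KK m c)) : 0 < κ + L p := by
  by_contra hcon
  rw [not_lt] at hcon
  have h1 : Tendsto (fun t : ℝ => p + t • p) (𝓝[>] 0) (𝓝 (p + (0 : ℝ) • p)) := by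
    have : Continuous (fun t : ℝ => p + t • p) := by fun_prop
    exact (this.tendsto 0).mono_left nhdsWithin_le_nhds
  rw [zero_smul, add_zero] at h1
  have h2 : ∀ᶠ t : ℝ in 𝓝[>] 0, p + t • p ∈ interior (KK m c) := h1 (isOpen_interior.mem_nhds hp)
  obtain ⟨t, ht, ht'⟩ := (h2.and self_mem_nhdsWithin).exists
  have h3 := hK _ (interior_subset ht)
  rw [map_add, map_smul, smul_eq_mul] at h3
  have h4 : L p < 0 := by linarith
  have h5 := mul_neg_of_pos_of_neg (show (0 : ℝ) < t from ht') h4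
  linarith

def Good (c : ℝ) : Prop := 1 / 2 < c ∧ c < 1 ∧ ∀ k l j : ℕ, k < 24 * m → l < 24 * m →
    j < 24 * m → ¬ k ≡ l [MOD 8 * m] →
    0 < (1 + c) * kap (ang m k) (ang m l) -
      c * (kap (ang m k) (ang m l) + Lf (ang m k) (ang m l) (g m j))

theorem kap_pos (s t : ℝ) : 0 < kap s t := by
  unfold kap
  have := Real.neg_one_le_cos (s - t)
  linarith

theorem func_nonneg (hm : 0 < m) (hc : Good m c) (k l : ℕ) (hk : k < 24 * m) (hl : l < 24 * m)
    (hkl : ¬ k ≡ l [MOD 8 * m]) (x : E4) (hx : x ∈ KK m c) :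
    0 ≤ kap (ang m k) (ang m l) + Lf (ang m k) (ang m l) x := by
  have h1 : KK m c ⊆ {x | 0 ≤ kap (ang m k) (ang m l) + Lf (ang m k) (ang m l) x} := by
    apply convexHull_min
    · rintro x (⟨j, rfl⟩ | ⟨_, ⟨j, rfl⟩, rfl⟩)
      · change 0 ≤ kap (ang m k) (ang m l) + Lf (ang m k) (ang m l) (gam (ang m j))
        rw [Lf_gam]
        apply mul_nonneg
        · have := Real.cos_le_one (ang m j - ang m k); linarith
        · have := Real.cos_le_one (ang m j - ang m l); linarith
      · have h2 := hc.2.2 k l (j % (24 * m)) hk hl (Nat.mod_lt _ (by positivity)) hkl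
        rw [g_mod m hm] at h2
        change 0 ≤ kap (ang m k) (ang m l) + Lf (ang m k) (ang m l) ((-c) • g m j)
        rw [map_smul, smul_eq_mul]
        linarith
    · intro x hx y hy a b ha hb hab
      have hx' : 0 ≤ kap (ang m k) (ang m l) + Lf (ang m k) (ang m l) x := hx
      have hy' : 0 ≤ kap (ang m k) (ang m l) + Lf (ang m k) (ang m l) y := hy
      change 0 ≤ kap (ang m k) (ang m l) + Lf (ang m k) (ang m l) (a • x + b • y)
      rw [map_add, map_smul, map_smul, smul_eq_mul, smul_eq_mul]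
      have h2 := mul_nonneg ha hx'
      have h3 := mul_nonneg hb hy'
      have h4 : kap (ang m k) (ang m l) = a * kap (ang m k) (ang m l) + b * kap (ang m k) (ang m l) := by
        rw [← add_mul, hab, one_mul]
      linarith
  exact h1 hx

theorem func_zero_l (k l : ℕ) :
    kap (ang m k) (ang m l) + Lf (ang m k) (ang m l) (g m k) = 0 := by
  unfold g
  rw [Lf_gam]
  simp

theorem func_zero_r (k l : ℕ) :
    kap (ang m k) (ang m l) + Lf (ang m k) (ang m l) (g m l) = 0 := by
  unfold g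
  rw [Lf_gam]
  simp

theorem not_ill (hm : 0 < m) (hc : Good m c) (k l : ℕ) (hkl : ¬ k ≡ l [MOD 8 * m]) (ε : ℝ) :
    (1 - ε) • g m k + ε • g m l ∉ interior (KK m c) := by
  intro h
  have h24 : 0 < 24 * m := by positivity
  have hkl' : ¬ (k % (24 * m)) ≡ (l % (24 * m)) [MOD 8 * m] := by
    intro h'
    apply hkl
    have d : 8 * m ∣ 24 * m := ⟨3, by ring⟩
    have a1 : (k % (24 * m)) ≡ k [MOD 8 * m] := (Nat.mod_modEq k (24 * m)).of_dvd d
    have a2 : (l % (24 * m)) ≡ l [MOD 8 * m] := (Nat.mod_modEq l (24 * m)).of_dvd d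
    exact (a1.symm.trans h').trans a2
  rw [← g_mod m hm k, ← g_mod m hm l] at h
  have h1 := pos_int m c hm _ _ (kap_pos _ _)
    (func_nonneg m c hm hc (k % (24 * m)) (l % (24 * m)) (Nat.mod_lt _ h24) (Nat.mod_lt _ h24) hkl')
    _ h
  rw [map_add, map_smul, map_smul, smul_eq_mul, smul_eq_mul] at h1
  have h2 := func_zero_l m (k % (24 * m)) (l % (24 * m))
  have h3 := func_zero_r m (k % (24 * m)) (l % (24 * m))
  have h4 : kap (ang m (k % (24 * m))) (ang m (l % (24 * m))) +
      ((1 - ε) * Lf (ang m (k % (24 * m))) (ang m (l % (24 * m))) (g m (k % (24 * m))) +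
      ε * Lf (ang m (k % (24 * m))) (ang m (l % (24 * m))) (g m (l % (24 * m)))) = 0 := by
    linear_combination (1 - ε) * h2 + ε * h3
  linarith

theorem g_frontier (hm : 0 < m) (hc : Good m c) (k : ℕ) : g m k ∈ frontier (KK m c) := by
  refine ⟨subset_closure (g_mem m c k), ?_⟩
  intro h
  have hkl : ¬ k ≡ k + 1 [MOD 8 * m] := by
    intro h'
    rw [Nat.modEq_iff_dvd] at h'
    push_cast at h'
    have : ((k : ℤ) + 1 - k) = 1 := by ring
    rw [this] at h'
    have h2 := Int.le_of_dvd one_pos h'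
    have h3 : (1 : ℤ) ≤ m := by exact_mod_cast hm
    omega
  have h1 := not_ill m c hm hc k (k + 1) hkl 0
  apply h1
  simpa using h

/-- points of the hull have a vertex component -/
theorem rep (x : E4) (hx : x ∈ KK m c) : ∃ v ∈ AA m ∪ BB m c, ∃ t : ℝ, 0 < t ∧ t ≤ 1 ∧
    ∃ w ∈ KK m c, x = t • v + (1 - t) • w := by
  have h1 : KK m c ⊆ {x | x ∈ KK m c ∧ ∃ v ∈ AA m ∪ BB m c, ∃ t : ℝ, 0 < t ∧ t ≤ 1 ∧
    ∃ w ∈ KK m c, x = t • v + (1 - t) • w} := by
    apply convexHull_min
    · intro v hv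
      have hvK : v ∈ KK m c := subset_convexHull ℝ _ hv
      exact ⟨hvK, v, hv, 1, one_pos, le_rfl, v, hvK, by simp⟩
    · rintro x ⟨hxK, v, hv, t, ht0, ht1, w, hw, rfl⟩ y ⟨hyK, v', hv', t', ht0', ht1', w', hw', hy'⟩ a b
        ha hb hab
      refine ⟨(KK_conv m c) hxK hyK ha hb hab, ?_⟩
      rcases ha.eq_or_lt with rfl | ha
      · rw [zero_smul, zero_add]
        have : b = 1 := by linarith
        subst this
        rw [one_smul]
        exact ⟨v', hv', t', ht0', ht1', w', hw', hy'⟩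
      · refine ⟨v, hv, a * t, by positivity, ?_, ?_⟩
        · have : a ≤ 1 := by linarith
          nlinarith
        · rcases (show a * t ≤ 1 by nlinarith).eq_or_lt with h2 | h2
          · have hb0 : b = 0 := by nlinarith
            have ha1 : a = 1 := by linarith
            have ht : t = 1 := by rw [ha1, one_mul] at h2; exact h2
            refine ⟨w, hw, ?_⟩
            rw [hb0, ha1, ht]
            simp
          · have h3 : 0 < 1 - a * t := by linarith
            refine ⟨(a * (1 - t) / (1 - a * t)) • w + (b / (1 - a * t)) • y, ?_, ?_⟩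
            · apply (KK_conv m c) hw hyK
              · have : 0 ≤ 1 - t := by linarith
                positivity
              · positivity
              · rw [← add_div, div_eq_one_iff_eq h3.ne']
                linarith
            · have e1 : (1 - a * t) * (a * (1 - t) / (1 - a * t)) = a * (1 - t) := by
                field_simp
              have e2 : (1 - a * t) * (b / (1 - a * t)) = b := by field_simp
              have e3 : (1 - a * t) • ((a * (1 - t) / (1 - a * t)) • w + (b / (1 - a * t)) • y) =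
                  (a * (1 - t)) • w + b • y := by
                rw [smul_add, smul_smul, smul_smul, e1, e2]
              rw [e3]
              module
  exact (h1 hx).2

theorem ill_of_rep (v w b : E4) (hw : w ∈ KK m c) (t : ℝ) (ht0 : 0 < t) (ht1 : t ≤ 1) (μ : ℝ)
    (hμ0 : 0 < μ) (hμ1 : μ < 1) (hint : (1 - μ) • v + μ • b ∈ interior (KK m c)) :
    ∃ ε : ℝ, 0 < ε ∧ ε < 1 ∧ (1 - ε) • (t • v + (1 - t) • w) + ε • b ∈ interior (KK m c) := by
  have hD : 0 < 1 - μ + μ * t := by
    have := mul_pos hμ0 ht0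
    linarith
  refine ⟨μ * t / (1 - μ + μ * t), by positivity, ?_, ?_⟩
  · rw [div_lt_one hD]; linarith
  · have h1 := (KK_conv m c).combo_interior_self_mem_interior hint hw
      (show 0 < t / (1 - μ + μ * t) by positivity)
      (show 0 ≤ (1 - μ) * (1 - t) / (1 - μ + μ * t) by
        have a1 : 0 ≤ 1 - μ := by linarith
        have a2 : 0 ≤ 1 - t := by linarith
        positivity)
      (show (t / (1 - μ + μ * t) + (1 - μ) * (1 - t) / (1 - μ + μ * t) : ℝ) = 1 by
        rw [← add_div, div_eq_one_iff_eq hD.ne']; ring)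
    have h2 : (1 - μ * t / (1 - μ + μ * t)) = (1 - μ) / (1 - μ + μ * t) := by
      field_simp
      ring
    rw [h2]
    convert h1 using 1
    rw [smul_add, smul_add, smul_smul, smul_smul, smul_smul, smul_smul]
    have e1 : t / (1 - μ + μ * t) * (1 - μ) = (1 - μ) / (1 - μ + μ * t) * t := by ring
    have e2 : t / (1 - μ + μ * t) * μ = μ * t / (1 - μ + μ * t) := by ring
    have e3 : (1 - μ) * (1 - t) / (1 - μ + μ * t) = (1 - μ) / (1 - μ + μ * t) * (1 - t) := by ring
    rw [e1, e2, e3]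
    module

theorem inner_AA (hm : 0 < m) (hc : Good m c) : InnerIll 4 (KK m c) (AA m) := by
  have hc0 : 0 < c := by linarith [hc.1]
  have hz := zero_int m c hm hc0 hc.2.1
  constructor
  · rintro _ ⟨k, rfl⟩
    exact g_frontier m c hm hc k
  · intro x hx
    have hcl : IsClosed (KK m c) :=
      (((AA_fin m hm).union ((AA_fin m hm).image _)).isCompact_convexHull (𝕜 := ℝ)).isClosed
    have hxK : x ∈ KK m c := by
      have := frontier_subset_closure hx
      rwa [hcl.closure_eq] at this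
    obtain ⟨v, hv, t, ht0, ht1, w, hw, rfl⟩ := rep m c x hxK
    rcases hv with ⟨k, rfl⟩ | ⟨_, ⟨k, rfl⟩, rfl⟩
    · refine ⟨g m (k + 8 * m), ⟨_, rfl⟩, ?_⟩
      apply ill_of_rep m c (g m k) w (g m (k + 8 * m)) hw t ht0 ht1 (1 / 2) (by norm_num) (by norm_num)
      have h1 := (KK_conv m c).combo_interior_self_mem_interior hz (cg_mem m c (k + 16 * m))
        (show 0 < 1 - 1 / (2 * c) by
          rw [sub_pos, div_lt_one (by positivity)]; linarith [hc.1])
        (show 0 ≤ 1 / (2 * c) by positivity) (show (1 - 1 / (2 * c) + 1 / (2 * c) : ℝ) = 1 by ring)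
      convert h1 using 1
      have h2 := g_sum3 m hm k
      have h3 : g m k + g m (k + 8 * m) = - g m (k + 16 * m) := eq_neg_of_add_eq_zero_left h2
      rw [smul_zero, zero_add, smul_smul]
      have h4 : (1 - 1 / 2 : ℝ) • g m k + (1 / 2 : ℝ) • g m (k + 8 * m) =
          (1 / 2 : ℝ) • (g m k + g m (k + 8 * m)) := by module
      rw [h4, h3]
      have h5 : (1 / (2 * c)) * -c = -(1 / 2) := by field_simp
      rw [h5]
      module
    · refine ⟨g m k, ⟨_, rfl⟩, ?_⟩
      apply ill_of_rep m c ((-c) • g m k) w (g m k) hw t ht0 ht1 (c / (1 + c)) (by positivity)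
        (by rw [div_lt_one (by positivity)]; linarith)
      have h2 : (1 - c / (1 + c)) • (-c) • g m k + (c / (1 + c)) • g m k = 0 := by
        rw [smul_smul, ← add_smul]
        have : (1 - c / (1 + c)) * -c + c / (1 + c) = 0 := by field_simp; ring
        rw [this, zero_smul]
      rw [h2]
      exact hz

end

theorem innerUnbounded : InnerUnbounded 4 := by
  intro n
  let m : ℕ := n + 1
  have hm : 0 < m := Nat.succ_pos n
  obtain ⟨c, hc⟩ := exists_c m hm
  have hc' : Good m c := hc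
  have hc0 : 0 < c := by linarith [hc.1]
  obtain ⟨S, hS, hSp⟩ := exists_min (InnerIll 4 (KK m c)) (AA m) (AA_fin m hm) (inner_AA m c hm hc')
  refine ⟨KK m c, S, ⟨KK_conv m c, ?_, ⟨0, zero_int m c hm hc0 hc.2.1⟩⟩, hSp, ?_⟩
  · exact ((AA_fin m hm).union ((AA_fin m hm).image _)).isCompact_convexHull (𝕜 := ℝ)
  · have h1 : ∀ j : Fin (8 * m), ∃ b ∈ S, ∃ l : ℕ, b = g m l ∧ (j : ℕ) ≡ l [MOD 8 * m] := by
      intro j
      obtain ⟨b, hb, ε, -, -, hill⟩ := hSp.1.2 (g m j) (g_frontier m c hm hc' j)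
      obtain ⟨l, rfl⟩ := hS hb
      refine ⟨_, hb, l, rfl, ?_⟩
      by_contra hcon
      exact not_ill m c hm hc' j l hcon ε hill
    have h1' : ∀ j : Fin (8 * m), ∃ b ∈ S, ∃ ε : ℝ, (1 - ε) • g m j + ε • b ∈ interior (KK m c) := by
      intro j
      obtain ⟨b, hb, ε, -, -, hill⟩ := hSp.1.2 (g m j) (g_frontier m c hm hc' j)
      exact ⟨b, hb, ε, hill⟩
    choose b hb ε hε using h1'
    have hinj : Function.Injective b := by
      intro i j hij
      obtain ⟨l, hl⟩ := hS (hb i)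
      have h2 : (i : ℕ) ≡ l [MOD 8 * m] := by
        by_contra hcon
        have := hε i
        rw [← hl] at this
        exact not_ill m c hm hc' i l hcon _ this
      have h3 : (j : ℕ) ≡ l [MOD 8 * m] := by
        by_contra hcon
        have := hε j
        rw [← hij, ← hl] at this
        exact not_ill m c hm hc' j l hcon _ this
      have h4 := h2.trans h3.symm
      exact Fin.ext (h4.eq_of_lt_of_lt i.2 j.2)
    have h2 : (range b).encard = (8 * m : ℕ) := by
      rw [← image_univ, hinj.encard_image, encard_univ]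
      simp
    have h3 : (range b).encard ≤ S.encard := by
      apply encard_le_encard
      rintro _ ⟨i, rfl⟩
      exact hb i
    rw [h2] at h3
    refine le_trans ?_ h3
    exact_mod_cast (by omega : n ≤ 8 * m)

end

end Pool.Agent.H8.Ill
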